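import Mathlib

/-!
# A monoid with context-free word problem whose group of units is not finitely generated

Negative answer to Q1 of MP_435286_al. The monoid is `⟨a, b, c | (a bⁿ c)² = 1, n ≥ 0⟩`.
-/

namespace Pool.Agent.Results.MP_435286_al.InfiniteRankUnits

/-- The word problem `{u # v^rev : π u = π v}` of a monoid `M` with respect to a map
`π : A^* → M`; the separator `#` is `none`, a letter `x` of `A` is `some x`. -/
def WP {M : Type} [Monoid M] {A : Type} (π : FreeMonoid A →* M) : Language (Option A) :=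
  {l | ∃ u v : FreeMonoid A, π u = π v ∧
    l = u.toList.map some ++ none :: (v.toList.map some).reverse}

/-- `M` has context-free word problem: for some finite generating set `A` (given as a finite
alphabet with `π : A^* → M` surjective, injective on letters) the language `WP π` is
context-free. -/
def HasContextFreeWP (M : Type) [Monoid M] : Prop :=
  ∃ (A : Type) (_ : Fintype A) (π : FreeMonoid A →* M),
    Function.Surjective π ∧ Function.Injective (fun x : A => π (FreeMonoid.of x)) ∧
      (WP π).IsContextFree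

/-! ## The monoid -/

/-- The alphabet. -/
inductive L | a | b | c
  deriving DecidableEq

instance : Fintype L := ⟨{L.a, L.b, L.c}, by intro x; cases x <;> simp⟩

open L List

/-- The relator `(a bⁿ c)²`. -/
def w (n : ℕ) : List L := a :: (replicate n b ++ c :: a :: (replicate n b ++ [c]))

/-- The defining relations. -/
def rel (x y : FreeMonoid L) : Prop := ∃ n, x = FreeMonoid.ofList (w n) ∧ y = 1

/-- The monoid. -/
abbrev M := PresentedMonoid rel

/-- The element represented by a word. -/
def p (u : List L) : M := PresentedMonoid.mk rel (FreeMonoid.ofList u)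

lemma p_nil : p [] = 1 := by
  unfold p; rw [FreeMonoid.ofList_nil, map_one]

lemma p_append (u v : List L) : p (u ++ v) = p u * p v := by
  unfold p; rw [FreeMonoid.ofList_append, map_mul]

lemma p_cons (x : L) (v : List L) : p (x :: v) = p [x] * p v := by
  rw [← p_append]; rfl

lemma p_w (n : ℕ) : p (w n) = 1 := by
  unfold p
  rw [PresentedMonoid.mk_eq_mk_of_rel (rels := rel) (x := FreeMonoid.ofList (w n)) (y := 1)
    ⟨n, rfl, rfl⟩, map_one]

/-! ## Words equal to one -/

/-- `G true` : words reducing to the empty word; `G false`: words `(bD)ⁿ c D a D (bD)ⁿ`. -/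
inductive G : Bool → List L → Prop
  | nil : G true []
  | cons {u v t : List L} : G true u → G false v → G true t → G true (a :: (u ++ (v ++ c :: t)))
  | base {u v : List L} : G true u → G true v → G false (c :: (u ++ a :: v))
  | step {u v t : List L} : G true u → G false v → G true t →
      G false (b :: (u ++ (v ++ b :: t)))

lemma G_append {i : Bool} {v t : List L} (h : G i v) (ht : G true t) : G i (v ++ t) := by
  induction h with
  | nil => simpa using ht
  | cons hu hv _ _ _ ih =>
    have := G.cons hu hv ih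
    simpa [List.append_assoc] using this
  | base hu _ _ ih =>
    have := G.base hu ih
    simpa [List.append_assoc] using this
  | step hu hv _ _ _ ih =>
    have := G.step hu hv ih
    simpa [List.append_assoc] using this

lemma G_p {i : Bool} {u : List L} (h : G i u) : (i = true → p u = 1) ∧
    (i = false → ∃ n, p u = p (replicate n b ++ c :: a :: replicate n b)) := by
  induction h with
  | nil => exact ⟨fun _ => p_nil, fun h => by simp at h⟩
  | @cons u v t _ _ _ ihu ihv iht =>
    refine ⟨fun _ => ?_, fun h => by simp at h⟩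
    obtain ⟨n, hn⟩ := ihv.2 rfl
    rw [p_cons, p_append, p_append, p_cons c t, ihu.1 rfl, iht.1 rfl, hn, one_mul, mul_one,
      ← p_append, ← p_cons]
    rw [← p_w n]
    congr 1
    simp [w]
  | @base u v _ _ ihu ihv =>
    refine ⟨fun h => by simp at h, fun _ => ⟨0, ?_⟩⟩
    rw [p_cons, p_append, p_cons a v, ihu.1 rfl, ihv.1 rfl, one_mul, mul_one, ← p_append]
    rfl
  | @step u v t _ _ _ ihu ihv iht =>
    refine ⟨fun h => by simp at h, fun _ => ?_⟩
    obtain ⟨n, hn⟩ := ihv.2 rfl
    refine ⟨n + 1, ?_⟩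
    rw [p_cons, p_append, p_append, p_cons b t, ihu.1 rfl, iht.1 rfl, hn, one_mul, mul_one,
      ← p_append, ← p_cons]
    congr 1
    rw [replicate_succ', ← replicate_succ']
    simp [replicate_succ]
    rw [← replicate_succ', replicate_succ]

/-- `Exp r u`: the word `u` is obtained from `r` by inserting words of `G true`. -/
inductive Exp : List L → List L → Prop
  | nil {d : List L} : G true d → Exp [] d
  | cons {x : L} {r d u : List L} : G true d → Exp r u → Exp (x :: r) (d ++ x :: u)

lemma Exp_app {e r u : List L} (he : G true e) (h : Exp r u) : Exp r (e ++ u) := by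
  cases h with
  | nil hd => exact Exp.nil (G_append he hd)
  | cons hd hu =>
    rw [← List.append_assoc]
    exact Exp.cons (G_append he hd) hu

lemma Exp_p {r u : List L} (h : Exp r u) : p u = p r := by
  induction h with
  | nil hd => rw [(G_p hd).1 rfl, p_nil]
  | @cons x r d u hd _ ih => rw [p_append, (G_p hd).1 rfl, one_mul, p_cons, ih, ← p_cons]

lemma Exp_key (n : ℕ) : ∀ t u : List L, Exp (replicate n b ++ c :: a :: (replicate n b ++ t)) u →
    ∃ d v u', G true d ∧ G false v ∧ Exp t u' ∧ u = d ++ (v ++ u') := by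
  induction n with
  | zero =>
    intro t u h
    simp only [replicate_zero, nil_append] at h
    cases h with
    | cons hd h2 =>
      cases h2 with
      | @cons _ _ d2 u2 hd2 h3 =>
        refine ⟨_, c :: (d2 ++ [a]), u2, hd, ?_, h3, by simp⟩
        exact G.base hd2 G.nil
  | succ n ih =>
    intro t u h
    have e : replicate (n + 1) b ++ c :: a :: (replicate (n + 1) b ++ t) =
        b :: (replicate n b ++ c :: a :: (replicate n b ++ (b :: t))) := by
      have e2 : replicate (n + 1) b ++ t = replicate n b ++ (b :: t) := by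
        rw [replicate_succ', List.append_assoc]; rfl
      rw [e2, replicate_succ]; rfl
    rw [e] at h
    cases h with
    | @cons _ _ d u1 hd h1 =>
      obtain ⟨d2, v2, u2, hd2, hv2, hu2, rfl⟩ := ih _ _ h1
      cases hu2 with
      | @cons _ _ d3 u3 hd3 h3 =>
        refine ⟨d, b :: (d2 ++ ((v2 ++ d3) ++ b :: [])), u3, hd, ?_, h3, by simp⟩
        exact G.step hd2 (G_append hv2 hd3) G.nil

/-! ## Irreducible words and normal forms -/

/-- No suffix of `r` starts with a relator. -/
def Irr (r : List L) : Prop := ∀ q, q <:+ r → ∀ n s, q ≠ w n ++ s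

lemma Irr_nil : Irr [] := by
  intro q hq n s h
  rw [List.suffix_nil] at hq
  rw [hq] at h
  simp [w] at h

lemma Irr_suffix {q r : List L} (h : Irr r) (hq : q <:+ r) : Irr q :=
  fun q' hq' => h q' (hq'.trans hq)

lemma Irr_cons {x : L} {r : List L} (h : Irr r) (hx : ∀ n s, x :: r ≠ w n ++ s) :
    Irr (x :: r) := by
  intro q hq n s
  rcases List.suffix_cons_iff.1 hq with rfl | hq
  · exact hx n s
  · exact h q hq n s

open Classical in
/-- Left multiplication by a letter on irreducible words. -/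
noncomputable def act (x : L) (r : List L) : List L :=
  if h : ∃ s, ∃ n, x :: r = w n ++ s then h.choose else x :: r

lemma rep_inj {n m : ℕ} {X Y : List L} (h : replicate n b ++ c :: X = replicate m b ++ c :: Y) :
    n = m ∧ X = Y := by
  induction n generalizing m with
  | zero =>
    cases m with
    | zero => simpa using h
    | succ m => simp [replicate_succ] at h
  | succ n ih =>
    cases m with
    | zero => simp [replicate_succ] at h
    | succ m =>
      simp only [replicate_succ, cons_append, List.cons.injEq, true_and] at h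
      have := ih h
      exact ⟨by omega, this.2⟩

lemma w_append (n : ℕ) (s : List L) :
    w n ++ s = a :: (replicate n b ++ c :: a :: (replicate n b ++ c :: s)) := by
  simp [w]

lemma w_inj {n m : ℕ} {s t : List L} (h : w n ++ s = w m ++ t) : n = m ∧ s = t := by
  rw [w_append, w_append] at h
  simp only [List.cons.injEq, true_and] at h
  obtain ⟨h1, h2⟩ := rep_inj h
  simp only [List.cons.injEq, true_and] at h2
  exact ⟨h1, (rep_inj h2).2⟩

lemma act_of {x : L} {r s : List L} {n : ℕ} (h : x :: r = w n ++ s) : act x r = s := by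
  have hex : ∃ s, ∃ n, x :: r = w n ++ s := ⟨s, n, h⟩
  unfold act
  rw [dif_pos hex]
  obtain ⟨m, hm⟩ := hex.choose_spec
  exact ((w_inj (h.symm.trans hm)).2).symm

lemma act_ne {x : L} {r : List L} (h : ∀ n s, x :: r ≠ w n ++ s) : act x r = x :: r := by
  unfold act
  rw [dif_neg]
  rintro ⟨s, n, hs⟩
  exact h n s hs

lemma act_b (r : List L) : act b r = b :: r := by
  apply act_ne
  intro n s h
  rw [w_append] at h
  simp at h

lemma act_c (r : List L) : act c r = c :: r := by
  apply act_ne
  intro n s h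
  rw [w_append] at h
  simp at h

lemma Irr_act {x : L} {r : List L} (h : Irr r) : Irr (act x r) := by
  by_cases hx : ∃ n s, x :: r = w n ++ s
  · obtain ⟨n, s, hs⟩ := hx
    rw [act_of hs]
    apply Irr_suffix h
    rw [w_append] at hs
    simp only [List.cons.injEq] at hs
    rw [hs.2]
    refine ⟨replicate n b ++ c :: a :: (replicate n b ++ [c]), by simp⟩
  · push Not at hx
    rw [act_ne hx]
    exact Irr_cons h hx

lemma foldr_rep (n : ℕ) (r : List L) : (replicate n b).foldr act r = replicate n b ++ r := by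
  induction n with
  | zero => simp
  | succ n ih => rw [replicate_succ, foldr_cons, ih, act_b]; rfl

lemma foldr_w (n : ℕ) {r : List L} (h : Irr r) : (w n).foldr act r = r := by
  unfold w
  rw [foldr_cons, foldr_append, foldr_rep, foldr_cons, foldr_cons, foldr_append, foldr_rep,
    foldr_cons, foldr_nil, act_c, act_c]
  by_cases hr : ∃ m s, a :: (replicate n b ++ c :: r) = w m ++ s
  · obtain ⟨m, s, hs⟩ := hr
    rw [act_of hs]
    rw [w_append] at hs
    simp only [List.cons.injEq, true_and] at hs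
    obtain ⟨rfl, hs2⟩ := rep_inj hs
    rw [hs2]
    apply act_ne
    intro k t ht
    rw [w_append] at ht
    simp only [List.cons.injEq, true_and] at ht
    obtain ⟨rfl, ht2⟩ := rep_inj ht
    rw [ht2] at hs2
    refine h r (List.suffix_refl r) n t ?_
    rw [w_append]
    exact hs2
  · push Not at hr
    rw [act_ne hr]
    exact act_of (n := n) (w_append n r).symm

/-- The action of a letter on irreducible words. -/
noncomputable def actE (x : L) : Function.End {r : List L // Irr r} :=
  fun r => ⟨act x r.1, Irr_act r.2⟩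

lemma lift_actE (u : List L) (r : {r : List L // Irr r}) :
    ((FreeMonoid.lift actE (FreeMonoid.ofList u)) r).1 = u.foldr act r.1 := by
  induction u with
  | nil => rfl
  | cons x u ih =>
    rw [FreeMonoid.ofList_cons, map_mul, FreeMonoid.lift_eval_of, foldr_cons, ← ih]
    rfl

/-- The action of `M` on irreducible words. -/
noncomputable def phi : M →* Function.End {r : List L // Irr r} :=
  PresentedMonoid.lift actE (by
    rintro x y ⟨n, rfl, rfl⟩
    funext r
    apply Subtype.ext
    rw [lift_actE, foldr_w n r.2, map_one]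
    rfl)

/-- Normal form. -/
noncomputable def nf (u : List L) : List L := u.foldr act []

lemma nf_eq {u v : List L} (h : p u = p v) : nf u = nf v := by
  have h1 : ∀ u : List L, (phi (p u) ⟨[], Irr_nil⟩).1 = nf u := fun u => lift_actE u ⟨[], Irr_nil⟩
  rw [← h1, ← h1, h]

lemma Exp_nf (u : List L) : Exp (nf u) u := by
  induction u with
  | nil => exact Exp.nil G.nil
  | cons x u ih =>
    change Exp (act x (nf u)) (x :: u)
    by_cases hx : ∃ n s, x :: nf u = w n ++ s
    · obtain ⟨n, s, hs⟩ := hx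
      rw [act_of hs]
      rw [w_append] at hs
      simp only [List.cons.injEq] at hs
      obtain ⟨rfl, hs⟩ := hs
      rw [hs] at ih
      obtain ⟨d, v, u', hd, hv, hu', rfl⟩ := Exp_key n _ _ ih
      cases hu' with
      | @cons _ _ d4 u5 hd4 h5 =>
        have : a :: (d ++ (v ++ (d4 ++ c :: u5))) = (a :: (d ++ ((v ++ d4) ++ c :: []))) ++ u5 := by
          simp
        rw [this]
        exact Exp_app (G.cons hd (G_append hv hd4) G.nil) h5
    · push Not at hx
      rw [act_ne hx]
      exact Exp.cons G.nil ih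

lemma p_eq_iff {u v : List L} : p u = p v ↔ ∃ r, Exp r u ∧ Exp r v := by
  constructor
  · intro h
    exact ⟨nf u, Exp_nf u, by rw [nf_eq h]; exact Exp_nf v⟩
  · rintro ⟨r, h1, h2⟩
    rw [Exp_p h1, Exp_p h2]

/-! ## The grammar -/

/-- Nonterminals: `S` (start), `D`, `N` and their reversals `E`, `F`. -/
inductive NT | S | D | N | E | F
  deriving DecidableEq

abbrev Sy := Symbol (Option L) NT

/-- terminal -/
def tm (x : L) : Sy := Symbol.terminal (some x)
def ha : Sy := Symbol.terminal none
def nt (n : NT) : Sy := Symbol.nonterminal n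

/-- The rules of the grammar. -/
def rls : List (ContextFreeRule (Option L) NT) :=
  [⟨NT.S, [nt NT.D, ha, nt NT.E]⟩,
   ⟨NT.S, [nt NT.D, tm a, nt NT.S, tm a, nt NT.E]⟩,
   ⟨NT.S, [nt NT.D, tm b, nt NT.S, tm b, nt NT.E]⟩,
   ⟨NT.S, [nt NT.D, tm c, nt NT.S, tm c, nt NT.E]⟩,
   ⟨NT.D, []⟩,
   ⟨NT.D, [tm a, nt NT.D, nt NT.N, tm c, nt NT.D]⟩,
   ⟨NT.N, [tm c, nt NT.D, tm a, nt NT.D]⟩,
   ⟨NT.N, [tm b, nt NT.D, nt NT.N, tm b, nt NT.D]⟩,
   ⟨NT.E, []⟩,
   ⟨NT.E, [nt NT.E, tm c, nt NT.F, nt NT.E, tm a]⟩,
   ⟨NT.F, [nt NT.E, tm a, nt NT.E, tm c]⟩,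
   ⟨NT.F, [nt NT.E, tm b, nt NT.F, nt NT.E, tm b]⟩]

/-- The grammar. -/
def gr : ContextFreeGrammar (Option L) := ⟨NT, NT.S, rls.toFinset⟩

/-- The intended language of each nonterminal. -/
def sem : NT → List (Option L) → Prop
  | NT.S, l => ∃ r u v, Exp r u ∧ Exp r v ∧ l = u.map some ++ none :: (v.map some).reverse
  | NT.D, l => ∃ u, G true u ∧ l = u.map some
  | NT.N, l => ∃ u, G false u ∧ l = u.map some
  | NT.E, l => ∃ u, G true u ∧ l = (u.map some).reverse
  | NT.F, l => ∃ u, G false u ∧ l = (u.map some).reverse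

/-- The language of a symbol. -/
def semS : Sy → List (Option L) → Prop
  | Symbol.terminal t, l => l = [t]
  | Symbol.nonterminal n, l => sem n l

/-- The language of a sentential form. -/
def Mat : List Sy → List (Option L) → Prop
  | [], l => l = []
  | s :: x, l => ∃ l1 l2, l = l1 ++ l2 ∧ semS s l1 ∧ Mat x l2

lemma Mat_append (x y : List Sy) (l : List (Option L)) :
    Mat (x ++ y) l ↔ ∃ l1 l2, l = l1 ++ l2 ∧ Mat x l1 ∧ Mat y l2 := by
  induction x generalizing l with
  | nil =>
    constructor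
    · intro h; exact ⟨[], l, rfl, rfl, h⟩
    · rintro ⟨l1, l2, rfl, h1, h2⟩
      have h1 : l1 = [] := h1
      subst h1; exact h2
  | cons s x ih =>
    constructor
    · rintro ⟨l1, l2, rfl, h1, h2⟩
      obtain ⟨l3, l4, rfl, h3, h4⟩ := (ih l2).1 h2
      exact ⟨l1 ++ l3, l4, by simp, ⟨l1, l3, rfl, h1, h3⟩, h4⟩
    · rintro ⟨l1, l2, rfl, ⟨l3, l4, rfl, h3, h4⟩, h2⟩
      exact ⟨l3, l4 ++ l2, by simp, h3, (ih _).2 ⟨l4, l2, rfl, h4, h2⟩⟩

lemma Mat_terminal (l : List (Option L)) : Mat (l.map Symbol.terminal) l := by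
  induction l with
  | nil => rfl
  | cons t l ih => exact ⟨[t], l, rfl, rfl, ih⟩

lemma Mat_single {n : NT} {l : List (Option L)} : Mat [nt n] l ↔ sem n l := by
  constructor
  · rintro ⟨l1, l2, rfl, h1, h2⟩
    have h2 : l2 = [] := h2
    subst h2
    rw [List.append_nil]; exact h1
  · intro h
    exact ⟨l, [], by simp, h, rfl⟩

lemma Mat_cons_tm {x : L} {y : List Sy} {l : List (Option L)} (h : Mat (tm x :: y) l) :
    ∃ l2, l = some x :: l2 ∧ Mat y l2 := by
  obtain ⟨l1, l2, rfl, h1, h2⟩ := h
  have h1 : l1 = [some x] := h1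
  subst h1
  exact ⟨l2, rfl, h2⟩

lemma Mat_cons_ha {y : List Sy} {l : List (Option L)} (h : Mat (ha :: y) l) :
    ∃ l2, l = none :: l2 ∧ Mat y l2 := by
  obtain ⟨l1, l2, rfl, h1, h2⟩ := h
  have h1 : l1 = [none] := h1
  subst h1
  exact ⟨l2, rfl, h2⟩

lemma Mat_cons_nt {n : NT} {y : List Sy} {l : List (Option L)} (h : Mat (nt n :: y) l) :
    ∃ l1 l2, l = l1 ++ l2 ∧ sem n l1 ∧ Mat y l2 := h

lemma sem_S_step (x : L) {l : List (Option L)}
    (h : Mat [nt NT.D, tm x, nt NT.S, tm x, nt NT.E] l) : sem NT.S l := by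
  obtain ⟨l1, l2, rfl, ⟨d, hd, rfl⟩, h1⟩ := Mat_cons_nt h
  obtain ⟨l3, rfl, h2⟩ := Mat_cons_tm h1
  obtain ⟨l4, l5, rfl, ⟨r, u, v, hu, hv, rfl⟩, h3⟩ := Mat_cons_nt h2
  obtain ⟨l6, rfl, h4⟩ := Mat_cons_tm h3
  obtain ⟨e, he, rfl⟩ := Mat_single.1 h4
  exact ⟨x :: r, d ++ x :: u, e ++ x :: v, Exp.cons hd hu, Exp.cons he hv, by simp⟩

lemma sound_rule (r : ContextFreeRule (Option L) NT) (hr : r ∈ rls) (l : List (Option L))
    (h : Mat r.output l) : sem r.input l := by
  simp only [rls, List.mem_cons, List.not_mem_nil, or_false] at hr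
  rcases hr with rfl | rfl | rfl | rfl | rfl | rfl | rfl | rfl | rfl | rfl | rfl | rfl
  · obtain ⟨l1, l2, rfl, ⟨d, hd, rfl⟩, h5⟩ := Mat_cons_nt h
    obtain ⟨l3, rfl, h6⟩ := Mat_cons_ha h5
    obtain ⟨e, he, rfl⟩ := Mat_single.1 h6
    exact ⟨[], d, e, Exp.nil hd, Exp.nil he, rfl⟩
  · exact sem_S_step a h
  · exact sem_S_step b h
  · exact sem_S_step c h
  · have hh : l = [] := h
    exact ⟨[], G.nil, by simp [hh]⟩
  · obtain ⟨l1, rfl, h7⟩ := Mat_cons_tm h
    obtain ⟨l2, l3, rfl, ⟨u, hu, rfl⟩, h8⟩ := Mat_cons_nt h7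
    obtain ⟨l4, l5, rfl, ⟨v, hv, rfl⟩, h9⟩ := Mat_cons_nt h8
    obtain ⟨l6, rfl, h10⟩ := Mat_cons_tm h9
    obtain ⟨t, ht, rfl⟩ := Mat_single.1 h10
    exact ⟨_, G.cons hu hv ht, by simp⟩
  · obtain ⟨l1, rfl, h11⟩ := Mat_cons_tm h
    obtain ⟨l2, l3, rfl, ⟨u, hu, rfl⟩, h12⟩ := Mat_cons_nt h11
    obtain ⟨l6, rfl, h13⟩ := Mat_cons_tm h12
    obtain ⟨t, ht, rfl⟩ := Mat_single.1 h13
    exact ⟨_, G.base hu ht, by simp⟩
  · obtain ⟨l1, rfl, h14⟩ := Mat_cons_tm h
    obtain ⟨l2, l3, rfl, ⟨u, hu, rfl⟩, h15⟩ := Mat_cons_nt h14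
    obtain ⟨l4, l5, rfl, ⟨v, hv, rfl⟩, h16⟩ := Mat_cons_nt h15
    obtain ⟨l6, rfl, h17⟩ := Mat_cons_tm h16
    obtain ⟨t, ht, rfl⟩ := Mat_single.1 h17
    exact ⟨_, G.step hu hv ht, by simp⟩
  · have hh : l = [] := h
    exact ⟨[], G.nil, by simp [hh]⟩
  · obtain ⟨l2, l3, rfl, ⟨t, ht, rfl⟩, h18⟩ := Mat_cons_nt h
    obtain ⟨l1, rfl, h19⟩ := Mat_cons_tm h18
    obtain ⟨l4, l5, rfl, ⟨v, hv, rfl⟩, h20⟩ := Mat_cons_nt h19
    obtain ⟨l6, l7, rfl, ⟨u, hu, rfl⟩, h21⟩ := Mat_cons_nt h20
    obtain ⟨l8, rfl, h22⟩ := Mat_cons_tm h21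
    have hh : l8 = [] := h22
    exact ⟨_, G.cons hu hv ht, by simp [hh]⟩
  · obtain ⟨l2, l3, rfl, ⟨t, ht, rfl⟩, h23⟩ := Mat_cons_nt h
    obtain ⟨l1, rfl, h24⟩ := Mat_cons_tm h23
    obtain ⟨l6, l7, rfl, ⟨u, hu, rfl⟩, h25⟩ := Mat_cons_nt h24
    obtain ⟨l8, rfl, h26⟩ := Mat_cons_tm h25
    have hh : l8 = [] := h26
    exact ⟨_, G.base hu ht, by simp [hh]⟩
  · obtain ⟨l2, l3, rfl, ⟨t, ht, rfl⟩, h27⟩ := Mat_cons_nt h
    obtain ⟨l1, rfl, h28⟩ := Mat_cons_tm h27
    obtain ⟨l4, l5, rfl, ⟨v, hv, rfl⟩, h29⟩ := Mat_cons_nt h28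
    obtain ⟨l6, l7, rfl, ⟨u, hu, rfl⟩, h30⟩ := Mat_cons_nt h29
    obtain ⟨l8, rfl, h31⟩ := Mat_cons_tm h30
    have hh : l8 = [] := h31
    exact ⟨_, G.step hu hv ht, by simp [hh]⟩

/-- One step of the grammar. -/
def Pr (x y : List Sy) : Prop := @ContextFreeGrammar.Produces (Option L) gr x y

/-- Derivation in the grammar. -/
def Dv (x y : List Sy) : Prop := @ContextFreeGrammar.Derives (Option L) gr x y

lemma Pr_parts {x y : List Sy} (h : Pr x y) : ∃ r ∈ rls, ∃ q s : List Sy,
    x = q ++ ([nt r.input] ++ s) ∧ y = q ++ (r.output ++ s) := by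
  obtain ⟨r, hr, hxy⟩ := h
  obtain ⟨q, s, h1, h2⟩ := hxy.exists_parts
  refine ⟨r, List.mem_toFinset.1 hr, q, s, ?_, ?_⟩
  · rw [h1, List.append_assoc]; rfl
  · rw [h2, List.append_assoc]; rfl

lemma sound_produces {x y : List Sy} (h : Pr x y) (l : List (Option L))
    (hl : Mat y l) : Mat x l := by
  obtain ⟨r, hr, q, s, rfl, rfl⟩ := Pr_parts h
  rw [Mat_append] at hl ⊢
  obtain ⟨l1, l2, rfl, h1, h2⟩ := hl
  rw [Mat_append] at h2
  obtain ⟨l3, l4, rfl, h3, h4⟩ := h2
  refine ⟨l1, l3 ++ l4, rfl, h1, ?_⟩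
  rw [Mat_append]
  exact ⟨l3, l4, rfl, Mat_single.2 (sound_rule r hr l3 h3), h4⟩

lemma sound_derives {x y : List Sy} (h : Dv x y) (l : List (Option L))
    (hl : Mat y l) : Mat x l := by
  unfold Dv at h
  induction h with
  | refl => exact hl
  | tail _ hp ih => exact ih (sound_produces hp l hl)

/-! completeness -/

lemma Dv_refl (x : List Sy) : Dv x x := Relation.ReflTransGen.refl

lemma Dv_trans {x y z : List Sy} (h1 : Dv x y) (h2 : Dv y z) : Dv x z :=
  Relation.ReflTransGen.trans h1 h2

lemma Dv_append_left {v w : List Sy} (h : Dv v w) (p : List Sy) : Dv (p ++ v) (p ++ w) :=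
  ContextFreeGrammar.Derives.append_left h p

lemma Dv_append_right {v w : List Sy} (h : Dv v w) (p : List Sy) : Dv (v ++ p) (w ++ p) :=
  ContextFreeGrammar.Derives.append_right h p

lemma der_rule {n : NT} {o y : List Sy} (hr : (⟨n, o⟩ : ContextFreeRule (Option L) NT) ∈ rls)
    (h : Dv o y) : Dv [nt n] y := by
  refine ContextFreeGrammar.Produces.trans_derives ?_ h
  refine ⟨⟨n, o⟩, (List.mem_toFinset (l := rls)).2 hr, ?_⟩
  exact ContextFreeRule.Rewrites.input_output (r := (⟨n, o⟩ : ContextFreeRule (Option L) NT))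

lemma der_app {u u' v v' : List Sy} (h1 : Dv u u') (h2 : Dv v v') :
    Dv (u ++ v) (u' ++ v') :=
  Dv_trans (Dv_append_right h1 v) (Dv_append_left h2 u')

lemma der_nt {n : NT} {u v v' : List Sy} (h1 : Dv [nt n] u) (h2 : Dv v v') :
    Dv (nt n :: v) (u ++ v') := der_app h1 h2

lemma der_tm {s : Sy} {v v' : List Sy} (h2 : Dv v v') :
    Dv (s :: v) (s :: v') := Dv_append_left h2 [s]

/-- terminal word -/
def tw (u : List L) : List Sy := (u.map some).map Symbol.terminal

lemma tw_append (u v : List L) : tw (u ++ v) = tw u ++ tw v := by simp [tw]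
lemma tw_cons (x : L) (v : List L) : tw (x :: v) = tm x :: tw v := rfl
lemma tw_nil : tw [] = [] := rfl

lemma comp_G {i : Bool} {u : List L} (h : G i u) :
    Dv [nt (if i then NT.D else NT.N)] (tw u) ∧
    Dv [nt (if i then NT.E else NT.F)] (tw u.reverse) := by
  induction h with
  | nil =>
    constructor
    · exact der_rule (o := []) (by simp [rls]) (Dv_refl _)
    · exact der_rule (o := []) (by simp [rls]) (Dv_refl _)
  | @cons u v t _ _ _ ihu ihv iht =>
    constructor
    · refine der_rule (o := [tm a, nt NT.D, nt NT.N, tm c, nt NT.D]) (by simp [rls]) ?_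
      have h0 := der_nt iht.1 (Dv_refl [])
      have := der_tm (s := tm a) (der_nt ihu.1 (der_nt ihv.1 (der_tm (s := tm c) h0)))
      simpa [tw_append, tw_cons] using this
    · refine der_rule (o := [nt NT.E, tm c, nt NT.F, nt NT.E, tm a]) (by simp [rls]) ?_
      have := der_nt iht.2 (der_tm (s := tm c) (der_nt ihv.2 (der_nt ihu.2
        (der_tm (s := tm a) (Dv_refl [])))))
      simpa [tw_append, tw_cons, tw_nil] using this
  | @base u v _ _ ihu ihv =>
    constructor
    · refine der_rule (o := [tm c, nt NT.D, tm a, nt NT.D]) (by simp [rls]) ?_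
      have h0 := der_nt ihv.1 (Dv_refl [])
      have := der_tm (s := tm c) (der_nt ihu.1 (der_tm (s := tm a) h0))
      simpa [tw_append, tw_cons] using this
    · refine der_rule (o := [nt NT.E, tm a, nt NT.E, tm c]) (by simp [rls]) ?_
      have := der_nt ihv.2 (der_tm (s := tm a) (der_nt ihu.2
        (der_tm (s := tm c) (Dv_refl []))))
      simpa [tw_append, tw_cons, tw_nil] using this
  | @step u v t _ _ _ ihu ihv iht =>
    constructor
    · refine der_rule (o := [tm b, nt NT.D, nt NT.N, tm b, nt NT.D]) (by simp [rls]) ?_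
      have h0 := der_nt iht.1 (Dv_refl [])
      have := der_tm (s := tm b) (der_nt ihu.1 (der_nt ihv.1 (der_tm (s := tm b) h0)))
      simpa [tw_append, tw_cons] using this
    · refine der_rule (o := [nt NT.E, tm b, nt NT.F, nt NT.E, tm b]) (by simp [rls]) ?_
      have := der_nt iht.2 (der_tm (s := tm b) (der_nt ihv.2 (der_nt ihu.2
        (der_tm (s := tm b) (Dv_refl [])))))
      simpa [tw_append, tw_cons, tw_nil] using this

lemma comp_S {r u v : List L} (hu : Exp r u) (hv : Exp r v) :
    Dv [nt NT.S] (tw u ++ ha :: tw v.reverse) := by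
  induction hu generalizing v with
  | @nil d hd =>
    cases hv with
    | nil he =>
      refine der_rule (o := [nt NT.D, ha, nt NT.E]) (by simp [rls]) ?_
      have h0 := der_nt (comp_G he).2 (Dv_refl [])
      have := der_nt (comp_G hd).1 (der_tm (s := ha) h0)
      simpa using this
  | @cons x r d u hd _ ih =>
    cases hv with
    | @cons _ _ e v he hv =>
      refine der_rule (o := [nt NT.D, tm x, nt NT.S, tm x, nt NT.E])
        (by cases x <;> simp [rls]) ?_
      have h0 := der_nt (comp_G he).2 (Dv_refl [])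
      have := der_nt (comp_G hd).1 (der_tm (s := tm x) (der_nt (ih hv) (der_tm (s := tm x) h0)))
      simpa [tw_append, tw_cons, tw_nil] using this

lemma nf_single (x : L) : nf [x] = [x] := by
  refine act_ne ?_
  intro n s h
  have := congrArg List.length h
  rw [w_append] at this
  simp at this

lemma letters_inj : Function.Injective (fun x : L => PresentedMonoid.mk rel (FreeMonoid.of x)) := by
  intro x y h
  have h1 : p [x] = p [y] := h
  have h2 := nf_eq h1
  rw [nf_single, nf_single] at h2
  simpa using h2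

lemma cf : HasContextFreeWP M := by
  refine ⟨L, inferInstance, PresentedMonoid.mk rel, PresentedMonoid.surjective_mk,
    letters_inj, gr, ?_⟩
  ext l
  rw [ContextFreeGrammar.mem_language_iff]
  constructor
  · intro h
    obtain ⟨r, u, v, hu, hv, rfl⟩ := Mat_single.1 (sound_derives h l (Mat_terminal l))
    exact ⟨FreeMonoid.ofList u, FreeMonoid.ofList v, p_eq_iff.2 ⟨r, hu, hv⟩, rfl⟩
  · rintro ⟨u, v, huv, rfl⟩
    obtain ⟨r, hu, hv⟩ := p_eq_iff.1 (show p u.toList = p v.toList from huv)
    have h := comp_S hu hv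
    have e : tw u.toList ++ ha :: tw v.toList.reverse =
        (u.toList.map some ++ none :: (v.toList.map some).reverse).map Symbol.terminal := by
      simp [tw, ha]
    rw [e] at h
    exact h

/-! ## The units -/

/-- States: a finite set of naturals and a stack of naturals, or `none`. -/
abbrev X := Option (Finset ℕ × List ℕ)

/-- The action of the letters on the states. -/
def st : L → X → X
  | _, none => none
  | a, some (_, []) => none
  | a, some (y, k :: s) => some (symmDiff y {k}, s)
  | b, some (_, []) => none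
  | b, some (y, k :: s) => some (y, (k + 1) :: s)
  | c, some (y, s) => some (y, 0 :: s)

/-- The same as a map to the monoid of endofunctions. -/
def stE (l : L) : Function.End X := st l

lemma lift_st (u : List L) (x : X) :
    (FreeMonoid.lift stE (FreeMonoid.ofList u)) x =
      u.foldr st x := by
  induction u with
  | nil => rfl
  | cons l u ih =>
    rw [FreeMonoid.ofList_cons, map_mul, FreeMonoid.lift_eval_of, foldr_cons, ← ih]
    rfl

lemma foldr_st_none (u : List L) : u.foldr st none = none := by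
  induction u with
  | nil => rfl
  | cons l u ih => rw [foldr_cons, ih]; cases l <;> rfl

lemma foldr_st_rep (n : ℕ) (y : Finset ℕ) (k : ℕ) (s : List ℕ) :
    (replicate n b).foldr st (some (y, k :: s)) = some (y, (k + n) :: s) := by
  induction n with
  | zero => rfl
  | succ n ih => rw [replicate_succ, foldr_cons, ih]; rfl

/-- the word `a bⁿ c` -/
def un (n : ℕ) : List L := a :: (replicate n b ++ [c])

lemma foldr_un (n : ℕ) (y : Finset ℕ) (s : List ℕ) :
    (un n).foldr st (some (y, s)) = some (symmDiff y {n}, s) := by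
  unfold un
  rw [foldr_cons, foldr_append, foldr_cons, foldr_nil]
  rw [show st c (some (y, s)) = some (y, 0 :: s) by simp [st], foldr_st_rep, zero_add]
  rfl

lemma w_eq (n : ℕ) : w n = un n ++ un n := by simp [w, un]

/-- The action of `M` on states. -/
noncomputable def rho : M →* Function.End X :=
  PresentedMonoid.lift stE (by
    rintro x y ⟨n, rfl, rfl⟩
    funext x
    rw [lift_st, map_one, w_eq, foldr_append]
    rcases x with _ | ⟨y, s⟩
    · rw [foldr_st_none, foldr_st_none]; rfl
    · rw [foldr_un, foldr_un, symmDiff_assoc, symmDiff_self, symmDiff_bot]; rfl)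

lemma rho_p (u : List L) (x : X) : rho (p u) x = u.foldr st x := lift_st u x

lemma p_surj (m : M) : ∃ u, p u = m := by
  obtain ⟨u, hu⟩ := PresentedMonoid.surjective_mk (rels := rel) m
  exact ⟨u.toList, hu⟩

/-- Translation and pushing more stack below. -/
lemma foldr_shift (u : List L) (y y' z : Finset ℕ) (s s' t : List ℕ)
    (h : u.foldr st (some (y, s)) = some (y', s')) :
    u.foldr st (some (symmDiff z y, s ++ t)) = some (symmDiff z y', s' ++ t) := by
  induction u generalizing y' s' with
  | nil =>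
    simp only [foldr_nil, Option.some.injEq, Prod.mk.injEq] at h ⊢
    rw [h.1, h.2]; exact ⟨rfl, rfl⟩
  | cons l u ih =>
    rw [foldr_cons] at h ⊢
    rcases hx : u.foldr st (some (y, s)) with _ | ⟨y1, s1⟩
    · rw [hx] at h
      cases l <;> simp [st] at h
    · rw [hx] at h
      rw [ih y1 s1 hx]
      cases l with
      | a =>
        cases s1 with
        | nil => simp [st] at h
        | cons k s1 =>
          simp only [st, Option.some.injEq, Prod.mk.injEq] at h
          obtain ⟨rfl, rfl⟩ := h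
          simp [st, symmDiff_assoc]
      | b =>
        cases s1 with
        | nil => simp [st] at h
        | cons k s1 =>
          simp only [st, Option.some.injEq, Prod.mk.injEq] at h
          obtain ⟨rfl, rfl⟩ := h
          simp [st]
      | c =>
        simp only [st, Option.some.injEq, Prod.mk.injEq] at h
        obtain ⟨rfl, rfl⟩ := h
        simp [st]

lemma rho_shift (m : M) (y' z : Finset ℕ) (s' t : List ℕ)
    (h : rho m (some (∅, [])) = some (y', s')) :
    rho m (some (z, t)) = some (symmDiff z y', s' ++ t) := by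
  obtain ⟨u, rfl⟩ := p_surj m
  rw [rho_p] at h ⊢
  have := foldr_shift u ∅ y' z [] s' t h
  rw [show symmDiff z (∅ : Finset ℕ) = z from symmDiff_bot z] at this
  simpa using this

lemma rho_mul (m m' : M) (x : X) : rho (m * m') x = rho m (rho m' x) := by
  rw [map_mul]; rfl

lemma rho_one (x : X) : rho 1 x = x := by rw [map_one]; rfl

lemma unit_state (x : Mˣ) : ∃ y, rho (x : M) (some (∅, [])) = some (y, []) := by
  have key : ∀ m m' : M, m * m' = 1 → ∃ y s, rho m' (some (∅, [])) = some (y, s) := by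
    intro m m' h
    have h1 : rho m (rho m' (some (∅, []))) = some (∅, []) := by rw [← rho_mul, h, rho_one]
    rcases hx : rho m' (some (∅, [])) with _ | ⟨y, s⟩
    · rw [hx] at h1
      obtain ⟨u, rfl⟩ := p_surj m
      rw [rho_p, foldr_st_none] at h1
      simp at h1
    · exact ⟨y, s, rfl⟩
  obtain ⟨y, s, hs⟩ := key (x⁻¹ : Mˣ) x (by simp)
  obtain ⟨y2, s2, hs2⟩ := key x (x⁻¹ : Mˣ) (by simp)
  have h1 : rho ((x⁻¹ : Mˣ) : M) (rho (x : M) (some (∅, []))) = some (∅, []) := by
    rw [← rho_mul]; simp [rho_one]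
  rw [hs, rho_shift _ _ y _ s hs2] at h1
  simp only [Option.some.injEq, Prod.mk.injEq, List.append_eq_nil_iff] at h1
  refine ⟨y, ?_⟩
  rw [hs, h1.2.2]

/-- Units whose state lies in a given finite set. -/
def H (Y : Finset ℕ) : Subgroup Mˣ where
  carrier := {x | ∃ y ⊆ Y, rho (x : M) (some (∅, [])) = some (y, [])}
  one_mem' := ⟨∅, Finset.empty_subset _, by rw [Units.val_one, rho_one]⟩
  mul_mem' := by
    rintro x x' ⟨y, hy, h⟩ ⟨y', hy', h'⟩
    refine ⟨symmDiff y' y, ?_, ?_⟩
    · intro k hk
      rw [Finset.mem_symmDiff] at hk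
      rcases hk with ⟨hk, _⟩ | ⟨hk, _⟩
      · exact hy' hk
      · exact hy hk
    · rw [Units.val_mul, rho_mul, h', rho_shift _ _ y' _ [] h]; rfl
  inv_mem' := by
    rintro x ⟨y, hy, h⟩
    obtain ⟨y2, h2⟩ := unit_state x⁻¹
    have h1 : rho ((x⁻¹ : Mˣ) : M) (rho (x : M) (some (∅, []))) = some (∅, []) := by
      rw [← rho_mul]; simp [rho_one]
    rw [h, rho_shift _ _ y _ [] h2] at h1
    simp only [Option.some.injEq, Prod.mk.injEq, List.append_nil, and_true] at h1
    have h3 : y = y2 := symmDiff_eq_bot.1 h1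
    exact ⟨y2, h3 ▸ hy, h2⟩

/-- The unit `a bⁿ c`. -/
noncomputable def U (n : ℕ) : Mˣ where
  val := p (un n)
  inv := p (un n)
  val_inv := by rw [← p_append, ← w_eq, p_w]
  inv_val := by rw [← p_append, ← w_eq, p_w]

lemma rho_U (n : ℕ) : rho (U n : M) (some (∅, [])) = some ({n}, []) := by
  change rho (p (un n)) _ = _
  rw [rho_p, foldr_un]
  rw [show symmDiff (∅ : Finset ℕ) {n} = {n} from bot_symmDiff _]

lemma not_fg : ¬ Group.FG Mˣ := by
  intro h
  rw [Group.fg_iff] at h
  obtain ⟨S, hS, hfin⟩ := h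
  choose y hy using unit_state
  let Y : Finset ℕ := hfin.toFinset.biUnion y
  have hle : Subgroup.closure S ≤ H Y := by
    rw [Subgroup.closure_le]
    intro x hx
    refine ⟨y x, ?_, hy x⟩
    apply Finset.subset_biUnion_of_mem y
    simpa using hx
  obtain ⟨n, hn⟩ := Infinite.exists_notMem_finset Y
  have hU : U n ∈ H Y := hle (by rw [hS]; trivial)
  obtain ⟨z, hz, h2⟩ := hU
  rw [rho_U] at h2
  simp only [Option.some.injEq, Prod.mk.injEq, and_true] at h2
  apply hn
  apply hz
  rw [← h2]; simp

/-- **Theorem.** There is a monoid with context-free word problem whose group of units is not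
finitely generated. -/
theorem result : ∃ (M : Type) (_ : Monoid M), HasContextFreeWP M ∧ ¬ Group.FG Mˣ :=
  ⟨M, inferInstance, cf, not_fg⟩

end Pool.Agent.Results.MP_435286_al.InfiniteRankUnits
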